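import Mathlib
import Pool.Agent.H158.TL.Final2

set_option autoImplicit false

/-!
# `Δ_{e_{n-1}} p_1^n` is the sum of the normalised link symmetric functions of the words with one `1`
-/

namespace Pool.Agent.Results.MP_ef09c4_co.DeltaPowerSum

open Finset MvPolynomial

/-- The ring of symmetric functions over `K`, as the polynomial ring in the power sums:
the variable `X k` is the power sum `p_k`, for `k ≥ 1`. -/
abbrev Lam (K : Type*) [CommRing K] : Type _ := MvPolynomial ℕ+ K

/-- The complete homogeneous symmetric function `h_n`, given by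
`(n + 1) h_{n+1} = p_1 h_n + p_2 h_{n-1} + ⋯ + p_{n+1} h_0` and `h_0 = 1`. -/
noncomputable def hsym (K : Type*) [Field K] : ℕ → Lam K
  | 0 => 1
  | n + 1 => ((n : K) + 1)⁻¹ • ∑ i : Fin (n + 1), X (Nat.succPNat i) * hsym K (n - i)

/-- `h_z` for an integer `z`; it is `0` for `z < 0`. -/
noncomputable def hint (K : Type*) [Field K] (z : ℤ) : Lam K :=
  if z < 0 then 0 else hsym K z.toNat

/-- The Schur function `s_lam = det (h_{lam_i - i + j})`, by the Jacobi-Trudi formula.
Here `lam.rowLen i` is the length of row `i` and `lam.colLen 0` is the number of rows. -/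
noncomputable def schur (K : Type*) [Field K] (lam : YoungDiagram) : Lam K :=
  Matrix.det (Matrix.of fun i j : Fin (lam.colLen 0) =>
    hint K ((lam.rowLen i : ℤ) - (i : ℤ) + (j : ℤ)))

/-- `nu ≤ lam` in the dominance order. -/
def DomLE (nu lam : YoungDiagram) : Prop :=
  nu.card = lam.card ∧ ∀ k, ∑ i ∈ range k, nu.rowLen i ≤ ∑ i ∈ range k, lam.rowLen i

/-- The plethystic substitution `F ↦ F[X(1 - s)]`, that is `p_k ↦ (1 - s^k) p_k`. -/
noncomputable def plethOneSub {K : Type*} [CommRing K] (s : K) : Lam K →ₐ[K] Lam K :=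
  aeval fun k : ℕ+ => C (1 - s ^ (k : ℕ)) * X k

/-- `F` is a scalar multiple of the modified Macdonald polynomial of `μ`: `F[X(1-q)]` is in the
span of the `s_lam` with `lam ≥ μ`, and `F[X(1-t)]` is in the span of the `s_lam` with
`lam ≥ μ'`. (The normalisation `⟨F, s_(n)⟩ = 1` would only fix the scalar.) -/
structure IsMacdonald {K : Type*} [Field K] (q t : K) (μ : YoungDiagram) (F : Lam K) : Prop where
  left : plethOneSub q F ∈ Submodule.span K {G | ∃ lam, DomLE μ lam ∧ G = schur K lam}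
  right : plethOneSub t F ∈ Submodule.span K {G | ∃ lam, DomLE μ.transpose lam ∧ G = schur K lam}

/-- The elementary symmetric function `e_k[B_μ]` of the monomials `q^{column} t^{row}` of the
cells `(row, column)` of `μ`. -/
def elemB {K : Type*} [Field K] (q t : K) (k : ℕ) (μ : YoungDiagram) : K :=
  ∑ S ∈ μ.cells.powersetCard k, ∏ c ∈ S, q ^ c.2 * t ^ c.1

/-- `T` is the operator `Δ_{e_k}`: each multiple `F` of the modified Macdonald polynomial of `μ`
is an eigenvector of `T`, with the eigenvalue `e_k[B_μ]`. -/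
def IsDelta {K : Type*} [Field K] (q t : K) (k : ℕ) (T : Lam K →ₗ[K] Lam K) : Prop :=
  ∀ (μ : YoungDiagram) (F : Lam K), IsMacdonald q t μ F → T F = elemB q t k μ • F

/-- `area(γ) = ∑ γ_i - #{i : γ_i > 0}`. -/
def area {n : ℕ} (γ : Fin n → ℕ) : ℕ := ∑ i, γ i - (univ.filter fun i => 0 < γ i).card

/-- `dinv(γ, π) = #{i < j : γ_i = γ_j, π_i > π_j} + #{i < j : γ_i + 1 = γ_j, π_i < π_j}`. -/
def dinv {n N : ℕ} (γ : Fin n → ℕ) (π : Fin n → Fin N) : ℕ :=
  (univ.filter fun p : Fin n × Fin n => p.1 < p.2 ∧ γ p.1 = γ p.2 ∧ π p.2 < π p.1).card +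
  (univ.filter fun p : Fin n × Fin n => p.1 < p.2 ∧ γ p.1 + 1 = γ p.2 ∧ π p.1 < π p.2).card

/-- For fixed `π`, the power series `∑_γ q^{area(γ)} t^{dinv(γ,π)}` over all `γ` with
`γ_i = 0` exactly when `v_i = 1`. A power series in `q` (variable `0`) and `t` (variable `1`) is
the function giving its coefficients; the coefficient of `q^a t^b` is the number of such `γ` with
area `a` and dinv `b`. -/
noncomputable def linkSeries {n N : ℕ} (v : Fin n → Bool) (π : Fin n → Fin N) :
    MvPowerSeries (Fin 2) ℚ := fun m =>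
  (Set.ncard {γ : Fin n → ℕ | (∀ i, γ i = 0 ↔ v i = true) ∧ area γ = m 0 ∧ dinv γ π = m 1} : ℚ)

/-- `L_v(x_1, …, x_N)`, with coefficients in `ℚ⟦q, t⟧`. -/
noncomputable def linkSymm {n : ℕ} (N : ℕ) (v : Fin n → Bool) :
    MvPolynomial (Fin N) (MvPowerSeries (Fin 2) ℚ) :=
  ∑ π : Fin n → Fin N, C (linkSeries v π) * ∏ i, X (π i)

/-- The number `|v|` of ones of the binary word `v`. -/
def ones {n : ℕ} (v : Fin n → Bool) : ℕ := (univ.filter fun i => v i = true).card

/-- `(1 - q)^{n - |v|} L_v(x_1, …, x_N)`, with coefficients in `ℚ⟦q, t⟧`. -/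
noncomputable def linkTilde {n : ℕ} (N : ℕ) (v : Fin n → Bool) :
    MvPolynomial (Fin N) (MvPowerSeries (Fin 2) ℚ) :=
  C ((1 - MvPowerSeries.X 0) ^ (n - ones v)) * linkSymm N v

/-- `F(x_1, …, x_N)` for a symmetric function `F` over `ℚ[q, t]`, the coefficients being read in
`ℚ⟦q, t⟧`: `p_k ↦ x_1^k + ⋯ + x_N^k`. -/
noncomputable def inVars (N : ℕ) : Lam (MvPolynomial (Fin 2) ℚ) →+*
    MvPolynomial (Fin N) (MvPowerSeries (Fin 2) ℚ) :=
  eval₂Hom ((C : MvPowerSeries (Fin 2) ℚ →+* MvPolynomial (Fin N) (MvPowerSeries (Fin 2) ℚ)).comp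
    (coeToMvPowerSeries.ringHom : MvPolynomial (Fin 2) ℚ →+* MvPowerSeries (Fin 2) ℚ))
    fun k : ℕ+ => ∑ i, X i ^ (k : ℕ)

/-- The symmetric function over `K` obtained from one over `ℚ[q, t]` by giving the two variables
their values `q` and `t` in `K`. -/
noncomputable def specialize {K : Type*} [Field K] [CharZero K] (q t : K) :
    Lam (MvPolynomial (Fin 2) ℚ) →+* Lam K :=
  MvPolynomial.map ((aeval ![q, t] : MvPolynomial (Fin 2) ℚ →ₐ[ℚ] K) :
    MvPolynomial (Fin 2) ℚ →+* K)

/-! ### Comparison with the definitions used in the proof -/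

open Pool.Agent.H158.TL in
lemma hsym_eq (K : Type*) [Field K] [CharZero K] (n : ℕ) :
    hsym K n = Pool.Agent.H209R2.EH.expo (fun k => pw K k) n := by
  refine Pool.Agent.H209R2.EH.expo_unique (fun k => pw K k) (hsym K) ?_ ?_ n
  · rw [hsym]
  · intro n
    have h1 : hsym K (n + 1) = ((n : K) + 1)⁻¹ •
        ∑ i : Fin (n + 1), X (Nat.succPNat i) * hsym K (n - i) := by rw [hsym]
    have h2 : ((n : K) + 1) ≠ 0 := by exact_mod_cast Nat.succ_ne_zero n
    have h3 : ∀ F : Lam K, ((n : ℚ) + 1) • F = ((n : K) + 1) • F := by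
      intro F
      rw [Algebra.smul_def, Algebra.smul_def, MvPolynomial.algebraMap_eq, map_add, map_natCast,
        map_one, map_add, map_natCast, map_one]
    rw [h3, h1, smul_smul, mul_inv_cancel₀ h2, one_smul,
      Finset.Nat.sum_antidiagonal_eq_sum_range_succ (fun i j => pw K (i + 1) * hsym K j),
      Finset.sum_range]
    rfl

open Pool.Agent.H158.TL in
lemma hint_eq (K : Type*) [Field K] [CharZero K] (z : ℤ) : hint K z = hZ K z := by
  rw [hint, hZ, hsym_eq]

lemma schur_eq (K : Type*) [Field K] [CharZero K] (lam : YoungDiagram) :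
    schur K lam = Pool.Agent.H158.TL.schur K lam := by
  rw [schur, Pool.Agent.H158.TL.schur]
  simp only [hint_eq]

lemma isMacdonald_iff {K : Type*} [Field K] [CharZero K] {q t : K} {μ : YoungDiagram}
    {F : Lam K} : IsMacdonald q t μ F ↔
      Pool.Agent.H158.TL.SpanCond q μ F ∧ Pool.Agent.H158.TL.SpanCond t μ.transpose F := by
  constructor
  · intro h
    have h1 := h.left
    have h2 := h.right
    simp only [schur_eq] at h1 h2
    exact ⟨h1, h2⟩
  · rintro ⟨h1, h2⟩
    refine ⟨?_, ?_⟩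
    · simp only [schur_eq]
      exact h1
    · simp only [schur_eq]
      exact h2

/-- Let `n ≥ 1` and let `K` be a field of characteristic `0` with `q, t` algebraically
independent over `ℚ`. The operator `Δ_{e_{n-1}}` exists, it is unique, and its value at `p_1^n`
is the symmetric function, with coefficients in `ℚ[q, t]`, whose restriction to `x_1, …, x_N` is
the sum of `(1 - q)^{n-1} L_v(x_1, …, x_N)` over the binary words `v` of length `n` with a single
`1`, for all `N`. -/
theorem result (n : ℕ) (hn : 1 ≤ n) : ∃ F : Lam (MvPolynomial (Fin 2) ℚ),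
    (∀ N : ℕ, inVars N F = ∑ v ∈ univ.filter (fun v : Fin n → Bool => ones v = 1),
      linkTilde N v) ∧
    ∀ (K : Type) [Field K] [CharZero K] (q t : K), AlgebraicIndependent ℚ ![q, t] →
      ∃ delta : Lam K →ₗ[K] Lam K,
        (∀ T : Lam K →ₗ[K] Lam K, IsDelta q t (n - 1) T ↔ T = delta) ∧
        delta (X 1 ^ n) = specialize q t F := by
  obtain ⟨m, rfl⟩ : ∃ m, n = m + 1 := ⟨n - 1, by omega⟩
  refine ⟨Pool.Agent.H158.TL.GQ (m + 1), fun N => Pool.Agent.H158.TL.inVars_GQ m N, ?_⟩
  intro K _ _ q t hqt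
  obtain ⟨T, hT⟩ := Pool.Agent.H158.TL.exists_diag (Pool.Agent.H158.TL.Gen.of_indep hqt)
    (Pool.Agent.H158.TL.eB q t m)
  refine ⟨T, fun T' => ?_, ?_⟩
  · rw [← hT T']
    constructor
    · intro h μ F h1 h2
      exact h μ F (isMacdonald_iff.2 ⟨h1, h2⟩)
    · intro h μ F hF
      obtain ⟨h1, h2⟩ := isMacdonald_iff.1 hF
      exact h μ F h1 h2
  · exact Pool.Agent.H158.TL.final_delta hqt m T ((hT T).2 rfl)

end Pool.Agent.Results.MP_ef09c4_co.DeltaPowerSum
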